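import Pool.Agent.Helper6.CS.Goals1

/-!
# Project CS, packet REC: the recursion theorem
-/

set_option autoImplicit false

namespace Pool.Agent.Helper86.CS

open Pool.Agent.Helper6.CS

set_option synthInstance.maxSize 1000000000

variable {M : Type} [World M]

/-- The word `w` is a computation of `n` steps. -/
def Ch (x₀ : Wd M) (st : M × Wd M → Wd M) (n : M) (w : Wd M) : Prop :=
  w.get 0 = Cod.cd x₀ ∧
    ∀ i, i < n → ∃ y : Wd M, w.get i = Cod.cd y ∧ w.get (i + 1) = Cod.cd (st (i, y))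

instance (x₀ : Wd M) (st : M × Wd M → Wd M) [IFn M st] :
    IP M fun p : M × Wd M => Ch x₀ st p.1 p.2 := by
  unfold Ch
  infer_instance

theorem agree {x₀ : Wd M} {st : M × Wd M → Wd M} {n : M} {w w' : Wd M}
    (h : Ch x₀ st n w) (h' : Ch x₀ st n w') : ∀ i, i ≤ n → w.get i = w'.get i := by
  refine ind (P := fun i => i ≤ n → w.get i = w'.get i) inferInstance ?_ ?_
  · intro _
    rw [h.1, h'.1]
  · intro i ih hi
    have hlt : i < n := lt_of_lt_of_le ((World.lt_succ i i).2 le_rfl) hi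
    obtain ⟨y, hy1, hy2⟩ := h.2 i hlt
    obtain ⟨y', hy1', hy2'⟩ := h'.2 i hlt
    have h1 := ih hlt.le
    rw [hy1, hy1'] at h1
    have h2 : y = y' := Cod.inj h1
    rw [hy2, hy2', h2]

/-- `x` is the value after `n` steps. -/
def R (x₀ : Wd M) (st : M × Wd M → Wd M) (n : M) (x : Wd M) : Prop :=
  ∃ w : Wd M, Ch x₀ st n w ∧ w.get n = Cod.cd x

instance (x₀ : Wd M) (st : M × Wd M → Wd M) [IFn M st] :
    IP M fun p : M × Wd M => R x₀ st p.1 p.2 := by
  unfold R
  infer_instance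

theorem exR (x₀ : Wd M) (st : M × Wd M → Wd M) [IFn M st] : ∀ n : M,
    ∃ w : Wd M, ∃ x : Wd M, w.len = n + 1 ∧ Ch x₀ st n w ∧ w.get n = Cod.cd x := by
  refine ind (P := fun n => ∃ w : Wd M, ∃ x : Wd M, w.len = n + 1 ∧ Ch x₀ st n w ∧
    w.get n = Cod.cd x) inferInstance ?_ ?_
  · refine ⟨Wd.sg (Cod.cd x₀), x₀, ?_, ⟨?_, ?_⟩, ?_⟩
    · rw [Wd.len_sg, zero_add]
    · rw [Wd.get_sg_zero]
    · intro i hi
      exact absurd hi (not_lt.2 (World.zero_le' i))
    · rw [Wd.get_sg_zero]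
  · rintro n ⟨w, x, hl, hc, hx⟩
    have hlt : ∀ i, i < n + 1 → i < w.len := by
      intro i hi; rw [hl]; exact hi
    have hs : (w ++ Wd.sg (Cod.cd (st (n, x)))).get (n + 1) = Cod.cd (st (n, x)) := by
      have := Wd.get_append_right w (Wd.sg (Cod.cd (st (n, x)))) 0
      rw [add_zero, hl, Wd.get_sg_zero] at this
      exact this
    refine ⟨w ++ Wd.sg (Cod.cd (st (n, x))), st (n, x), ?_, ⟨?_, ?_⟩, hs⟩
    · rw [Wd.len_append, Wd.len_sg, hl]
    · rw [Wd.get_append_left _ _ (hlt 0 ((World.lt_succ 0 n).2 (World.zero_le' n)))]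
      exact hc.1
    · intro i hi
      rw [World.lt_succ] at hi
      rcases hi.lt_or_eq with h | rfl
      · obtain ⟨y, hy1, hy2⟩ := hc.2 i h
        refine ⟨y, ?_, ?_⟩
        · rw [Wd.get_append_left _ _ (hlt i ((World.lt_succ i n).2 hi))]
          exact hy1
        · rw [Wd.get_append_left _ _ (hlt (i + 1) ?_)]
          · exact hy2
          · rw [World.lt_succ]
            exact World.add_one_le h
      · refine ⟨x, ?_, hs⟩
        rw [Wd.get_append_left _ _ (hlt i ((World.lt_succ i i).2 le_rfl))]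
        exact hx

theorem t_REC : G_REC := by
  intro M _ x₀ st hst
  have hR : ∀ n : M, R x₀ st n (pick M fun x : Wd M => R x₀ st n x) := by
    intro n
    have hip : IP M fun x : Wd M => R x₀ st n x :=
      IP.comp2 (P := fun p : M × Wd M => R x₀ st p.1 p.2) inferInstance (f := fun _ : Wd M => n)
        (g := fun x : Wd M => x) inferInstance inferInstance
    obtain ⟨w, x, -, hc, hx⟩ := exR x₀ st n
    exact pick_spec (P := fun x : Wd M => R x₀ st n x) ⟨x, w, hc, hx⟩
  refine ⟨fun n => pick M fun x : Wd M => R x₀ st n x, ?_, ?_, ?_⟩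
  · exact IFn.pick (P := fun (n : M) (x : Wd M) => R x₀ st n x)
  · obtain ⟨w, hc, hx⟩ := hR 0
    have h1 := hc.1
    rw [hx] at h1
    exact Cod.inj h1
  · intro n
    obtain ⟨w, hc, hx⟩ := hR (n + 1)
    obtain ⟨w', hc', hx'⟩ := hR n
    have hcn : Ch x₀ st n w := ⟨hc.1, fun i hi =>
      hc.2 i (lt_trans hi ((World.lt_succ n n).2 le_rfl))⟩
    have h1 := agree hcn hc' n le_rfl
    obtain ⟨y, hy1, hy2⟩ := hc.2 n ((World.lt_succ n n).2 le_rfl)
    rw [hy1, hx'] at h1
    have h2 := Cod.inj h1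
    rw [hx, h2] at hy2
    exact Cod.inj hy2

end Pool.Agent.Helper86.CS
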