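import Pool.Agent.Helper75.CS.Goals

/-!
# Project CS (MP_06b118_co): packet CSWALK
-/

set_option autoImplicit false

namespace Pool.Agent.Helper86.CS

open Finset Pool.Agent.Helper75.CS

theorem isWalk_snoc {E Q : Type} (src dst : E → Q) {N : ℕ} (q q' : Q) (w : Fin N → E) (e : E) :
    IsWalk src dst q q' (Fin.snoc w e : Fin (N + 1) → E) ↔
      dst e = q' ∧ IsWalk src dst q (src e) w := by
  constructor
  · rintro ⟨s, h0, h1, h2⟩
    have hl := h2 (Fin.last N)
    rw [Fin.snoc_last] at hl
    refine ⟨?_, fun i => s i.castSucc, ?_, ?_, fun i => ?_⟩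
    · rw [hl.2, Fin.succ_last, h1]
    · exact h0
    · exact hl.1.symm
    · have hi := h2 i.castSucc
      rw [Fin.snoc_castSucc] at hi
      exact ⟨hi.1, by rw [hi.2, Fin.succ_castSucc]⟩
  · rintro ⟨he, s, h0, h1, h2⟩
    refine ⟨Fin.snoc s q', ?_, ?_, fun i => ?_⟩
    · have h3 : (0 : Fin (N + 1 + 1)) = Fin.castSucc 0 := rfl
      rw [h3, Fin.snoc_castSucc, h0]
    · rw [Fin.snoc_last]
    · refine Fin.lastCases ?_ (fun j => ?_) i
      · rw [Fin.snoc_last, Fin.snoc_castSucc, Fin.succ_last, Fin.snoc_last, h1]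
        exact ⟨rfl, he⟩
      · rw [Fin.snoc_castSucc, Fin.snoc_castSucc, Fin.succ_castSucc, Fin.snoc_castSucc]
        exact h2 j

theorem cswalk : S_CSWALK := by
  classical
  intro E Q _ _ src dst q0 c T hT
  refine ⟨fun q => ?_, fun N q' => ?_⟩
  · rw [hT, Fintype.sum_unique]
    have h1 : IsWalk src dst q0 q (default : Fin 0 → E) ↔ q = q0 := by
      constructor
      · rintro ⟨s, h0, h1, -⟩
        rw [← h1, ← h0]
        rfl
      · rintro rfl
        exact ⟨fun _ => q, rfl, rfl, fun i => i.elim0⟩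
    rw [Fin.prod_univ_zero]
    by_cases h : q = q0
    · rw [if_pos h, if_pos (h1.2 h)]
    · rw [if_neg h, if_neg fun h2 => h (h1.1 h2)]
  · rw [hT (N + 1) q', ← (Fin.snocEquiv (fun _ : Fin (N + 1) => E)).sum_comp,
      Fintype.sum_prod_type]
    refine Finset.sum_congr rfl fun e _ => ?_
    have h1 : ∀ w : Fin N → E, (if IsWalk src dst q0 q' (Fin.snocEquiv (fun _ : Fin (N + 1) => E)
        (e, w)) then ∏ i, c (Fin.snocEquiv (fun _ : Fin (N + 1) => E) (e, w) i) else 0) =
        if dst e = q' then (if IsWalk src dst q0 (src e) w then ∏ i, c (w i) else 0) * c e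
          else 0 := by
      intro w
      have h2 : (Fin.snocEquiv (fun _ : Fin (N + 1) => E)) (e, w) =
          (Fin.snoc w e : Fin (N + 1) → E) := rfl
      rw [h2]
      have h3 := isWalk_snoc src dst q0 q' w e
      have h4 : ∏ i, c ((Fin.snoc w e : Fin (N + 1) → E) i) = (∏ i, c (w i)) * c e := by
        rw [Fin.prod_univ_castSucc, Fin.snoc_last]
        congr 1
        refine Finset.prod_congr rfl fun i _ => ?_
        rw [Fin.snoc_castSucc]
      rw [h4]
      by_cases h5 : dst e = q'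
      · rw [if_pos h5]
        by_cases h6 : IsWalk src dst q0 (src e) w
        · rw [if_pos h6, if_pos (h3.2 ⟨h5, h6⟩)]
        · rw [if_neg h6, if_neg fun h7 => h6 (h3.1 h7).2, zero_mul]
      · rw [if_neg h5, if_neg fun h7 => h5 (h3.1 h7).1]
    rw [Finset.sum_congr rfl fun w _ => h1 w]
    by_cases h5 : dst e = q'
    · simp only [if_pos h5]
      rw [← Finset.sum_mul, hT N (src e)]
    · simp only [if_neg h5]
      exact Finset.sum_const_zero

end Pool.Agent.Helper86.CS
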